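import Pool.Agent.Lib.MP_865fc0_ag.TW.MainG

/-!
# The jump of the Le Potier function to the left of zero is inherited by simple cyclic covers

All definitions of the statement are in `Pool/Agent/Lib/MP_865fc0_ag/TW/Def.lean` (surfaces, sheaves,
the Le Potier function `Phi`, `CyclicCover`), in `Pool/Agent/Lib/MP_865fc0_ag/TW/DefI.lean` and
`DefG.lean` (`CanonicalClass`, `JumpsBy`, `Gorenstein`, `SerreDuality`) and in the section on the base `P^1 x P^1` of
`Pool/Agent/Lib/MP_865fc0_ag/Defs.lean` (`K`, `Chart`, `w`, `Ralg`).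
-/

open Pool.Agent.Lib.LePotier
open Pool.Agent.Lib.LP (K)

namespace Pool.Agent.Results.MP_865fc0_ag.CoverInheritance

/-- Let `S` be a normal surface with invertible `ω_S` (for instance a smooth surface), finite over
`P^1 x P^1`, `H` the pull back of `O(1,1)`.  Suppose that `Φ_{S,H}(t) ≤ t²/2` for all `t` and
`Φ_{S,H}(t) ≤ t²/2 - δ` for `-η < t < 0`.  Let `S'` be a simple cyclic cover of `S` of degree `d`, totally
branched along a reduced divisor of `|d a H|`, `H'` the pull back of `H`.  Then `ω_{S'}` is invertible,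
`Φ_{S',H'}(t) ≤ t²/2` for all `t` and `Φ_{S',H'}(t) ≤ t²/2 - min(δ, a η/4, a²)/d` for `-η/2 < t < 0`.  If
`K_S ~ k H` then `K_{S'} ~ (k + a (d - 1)) H'`.  If `K_S ~ k H` for some `k`, or if `χ(ω_S) = χ(O_S)` (which
is always true, by Serre duality), then `χ(ω_{S'}) = χ(O_{S'})`, `Φ_{S',H'}(0) = 0` and `Φ_{S',H'}` is not
continuous at `0`. -/
theorem result (L L' : Type) [Field L] [Algebra ℂ L] [Algebra K L] [IsScalarTower ℂ K L]
    [Field L'] [Algebra ℂ L'] [Algebra K L'] [IsScalarTower ℂ K L'] [Algebra L L']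
    [IsScalarTower K L L'] [IsScalarTower ℂ L L'] (d a : ℕ) (y : L')
    (hL : FiniteDimensional K L) (hG : Gorenstein L) (hC : CyclicCover L L' d a y)
    (η δ : ℝ) (hη : 0 < η) (hδ : 0 < δ) (hJ : JumpsBy L η δ) :
    FiniteDimensional K L' ∧ Gorenstein L' ∧
      JumpsBy L' (η / 2) (min δ (min (a * η / 4) ((a : ℝ) ^ 2)) / d) ∧
      (∀ k : ℤ, CanonicalClass L k → CanonicalClass L' (k + a * (d - 1))) ∧
      (SerreDuality L ∨ (∃ k : ℤ, CanonicalClass L k) →
        SerreDuality L' ∧ Phi L' 0 = 0 ∧ ¬ ContinuousAt (Phi L') 0) :=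
  cover_inheritance L L' d a y hL hG hC η δ hη hδ hJ

end Pool.Agent.Results.MP_865fc0_ag.CoverInheritance
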