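import Pool.Agent.Lib.MP_865fc0_ag.TW.Tran

/-!
# The conjecture of Fu, Li and Zhao for towers of cyclic covers of `P^1 x P^1`

All definitions of the statement are in `Pool/Agent/Lib/MP_865fc0_ag/TW/Def.lean` (surfaces, sheaves,
the Le Potier function `Phi`, `CyclicCover`, `Tower`) and in the section on the base `P^1 x P^1` of
`Pool/Agent/Lib/MP_865fc0_ag/Defs.lean` (`K`, `Chart`, `w`, `Ralg`).
-/

open Pool.Agent.Lib.LePotier
open Pool.Agent.Lib.LP (K)

namespace Pool.Agent.Results.MP_865fc0_ag.CyclicCoverTowers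

/-- Let `S` be a surface obtained from `P^1 x P^1` by finitely many cyclic covers, each totally
branched along a reduced divisor of `|d a H|`, where `d ≥ 2` is its degree and `a ≥ 1` (`d` and `a`
may vary from step to step; `H` is the pull back of `O(1,1)`; the surfaces are normal, for instance
smooth).  Then `H^1(O_S) = 0`, `Φ_{S,H}(0) = 0` and
`Φ_{S,H}(t) ≤ t^2/2 - 1/(4 H^2)` for `-1/H^2 < t < 0`, so `Φ_{S,H}` is not continuous at `0`.
The surfaces `y^d = f` over `P^1 x P^1`, where the branch curve `f = 0` of bidegree `(da, da)` is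
reduced, are cyclic covers in this sense, so they are among these surfaces. -/
theorem result :
    (∀ (L : Type) [Field L] [Algebra ℂ L] [Algebra K L] [IsScalarTower ℂ K L], Tower L →
      FiniteDimensional K L ∧ H1Vanishes L ∧ Phi L 0 = 0 ∧
        (∀ t : ℝ, -(1 / (Hsq L : ℝ)) < t → t < 0 →
          Phi L t ≤ ((t ^ 2 / 2 - 1 / (4 * (Hsq L : ℝ)) : ℝ) : EReal)) ∧
        ¬ ContinuousAt (Phi L) 0) ∧
    ∀ (L : Type) [Field L] [Algebra ℂ L] [Algebra K L] [IsScalarTower ℂ K L]
      (d a : ℕ) (y : L) (f : K), 2 ≤ d → 1 ≤ a → y ^ d = algebraMap K L f →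
      Module.finrank K L = d → Algebra.adjoin K {y} = ⊤ → ReducedCurve f (d * a) →
      CyclicCover K L d a y :=
  ⟨fun L _ _ _ _ hL => main_tower L hL,
    fun L _ _ _ _ d a y f hd ha hy hn hL hs => main_explicit L d a y f hd ha hy hn hL hs⟩

end Pool.Agent.Results.MP_865fc0_ag.CyclicCoverTowers
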